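import Pool.Agent.H27.HB.TA

/-!
# Row HGC: continuity and support of the horizontal gradient
-/

set_option autoImplicit false

namespace Pool.Agent.H17.HB
open MeasureTheory Set Filter Topology Pool.Agent.H80.HS Pool.Agent.H93.HQ Pool.Agent.H27.HB
open scoped ContDiff ENNReal

theorem smooth_X {n : ℕ} {u : H n → ℝ} (hu : ContDiff ℝ ∞ u) (j : Fin n) :
    ContDiff ℝ ∞ (X u j) := by
  unfold X
  refine ContDiff.clm_apply (hu.fderiv_right (m := ∞) (by simp)) ?_
  fun_prop

theorem smooth_Y {n : ℕ} {u : H n → ℝ} (hu : ContDiff ℝ ∞ u) (j : Fin n) :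
    ContDiff ℝ ∞ (Y u j) := by
  unfold Y
  refine ContDiff.clm_apply (hu.fderiv_right (m := ∞) (by simp)) ?_
  fun_prop

theorem hg_zero {n : ℕ} {u : H n → ℝ} {z : H n} (hz : z ∉ tsupport u) : hg u z = 0 := by
  unfold hg
  ext i
  rcases i with j | j
  · exact X_eq_zero hz j
  · exact Y_eq_zero hz j

theorem pf_HGC : T_HGC := by
  intro n u
  refine ⟨fun hu => ?_, fun hu => ?_, fun z hz => hg_zero hz, fun hc => ?_⟩
  · unfold hg
    refine (PiLp.continuous_toLp 2 _).comp (continuous_pi fun i => ?_)
    rcases i with j | j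
    · exact continuous_X hu j
    · exact continuous_Y hu j
  · refine contDiff_euclidean.2 fun i => ?_
    rcases i with j | j
    · exact smooth_X hu j
    · exact smooth_Y hu j
  · exact HasCompactSupport.intro hc fun z hz => hg_zero hz

end Pool.Agent.H17.HB
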