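import Pool.Agent.H27.HB.TX

set_option autoImplicit false

namespace Pool.Agent.H17.HB
open MeasureTheory Set Filter Topology Pool.Agent.H80.HS Pool.Agent.H93.HQ Pool.Agent.H27.HB
open scoped ContDiff ENNReal

namespace LNAaux

theorem exp_sub_one (y : ℝ) : |Real.exp y - 1| ≤ |y| * (1 + Real.exp y) := by
  rcases le_total 0 y with h | h
  · have h1 := Real.add_one_le_exp (-y)
    have h2 : Real.exp y * Real.exp (-y) = 1 := by rw [← Real.exp_add]; simp
    have h3 := Real.exp_pos y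
    have h4 : 1 ≤ Real.exp y := Real.one_le_exp h
    rw [abs_of_nonneg h, abs_of_nonneg (by linarith)]
    nlinarith
  · have h1 := Real.add_one_le_exp y
    have h3 := Real.exp_pos y
    have h4 : Real.exp y ≤ 1 := Real.exp_le_one_iff.2 h
    rw [abs_of_nonpos h, abs_of_nonpos (by linarith)]
    nlinarith

theorem log_bd {g : ℝ} (hg : 0 < g) : |Real.log g| ≤ 8 * (g ^ (1 / 8 : ℝ) + g ^ (-1 / 8 : ℝ)) := by
  have h1 := Real.log_le_rpow_div hg.le (by norm_num : (0 : ℝ) < 1 / 8)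
  have h2 := Real.log_le_rpow_div (inv_pos.2 hg).le (by norm_num : (0 : ℝ) < 1 / 8)
  rw [Real.log_inv] at h2
  have h3 : (g⁻¹) ^ (1 / 8 : ℝ) = g ^ (-1 / 8 : ℝ) := by
    rw [← Real.rpow_neg_one, ← Real.rpow_mul hg.le]
    norm_num
  rw [h3] at h2
  have p1 := Real.rpow_pos_of_pos hg (1 / 8 : ℝ)
  have p2 := Real.rpow_pos_of_pos hg (-1 / 8 : ℝ)
  rw [abs_le]
  constructor <;> linarith

/-- the pointwise bound -/
theorem pw {M g x : ℝ} (hM : 1 ≤ M) (hg : 0 < g) (hgM : g ≤ M) (hx0 : 0 ≤ x) (hx : x ≤ 1 / 8) :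
    |g ^ (-x) - 1| * g ≤ 32 * M * x * g ^ (3 / 4 : ℝ) := by
  have e1 : g ^ (-x) = Real.exp (-x * Real.log g) := by
    rw [Real.rpow_def_of_pos hg, mul_comm]
  have h1 : |g ^ (-x) - 1| ≤ x * |Real.log g| * (1 + g ^ (-x)) := by
    have h := exp_sub_one (-x * Real.log g)
    rw [← e1, abs_mul, abs_neg, abs_of_nonneg hx0] at h
    exact h
  have h2 := log_bd hg
  have hb : ∀ e : ℝ, 3 / 4 ≤ e → e ≤ 7 / 4 → g ^ e ≤ M * g ^ (3 / 4 : ℝ) := by
    intro e he he'
    have e2 : g ^ e = g ^ (e - 3 / 4) * g ^ (3 / 4 : ℝ) := by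
      rw [← Real.rpow_add hg]
      ring_nf
    rw [e2]
    apply mul_le_mul_of_nonneg_right _ (Real.rpow_nonneg hg.le _)
    calc g ^ (e - 3 / 4) ≤ M ^ (e - 3 / 4) := Real.rpow_le_rpow hg.le hgM (by linarith)
      _ ≤ M ^ (1 : ℝ) := Real.rpow_le_rpow_of_exponent_le hM (by linarith)
      _ = M := Real.rpow_one M
  have p1 := Real.rpow_pos_of_pos hg (-x)
  calc |g ^ (-x) - 1| * g ≤ (x * |Real.log g| * (1 + g ^ (-x))) * g :=
        mul_le_mul_of_nonneg_right h1 hg.le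
    _ ≤ (x * (8 * (g ^ (1 / 8 : ℝ) + g ^ (-1 / 8 : ℝ))) * (1 + g ^ (-x))) * g := by
        gcongr
    _ = 8 * x * (g ^ (1 / 8 : ℝ) * g ^ (1 : ℝ) + g ^ (-1 / 8 : ℝ) * g ^ (1 : ℝ) +
          g ^ (1 / 8 : ℝ) * g ^ (-x) * g ^ (1 : ℝ) +
          g ^ (-1 / 8 : ℝ) * g ^ (-x) * g ^ (1 : ℝ)) := by
        rw [Real.rpow_one]
        ring
    _ = 8 * x * (g ^ (9 / 8 : ℝ) + g ^ (7 / 8 : ℝ) + g ^ (9 / 8 - x) + g ^ (7 / 8 - x)) := by
        rw [← Real.rpow_add hg, ← Real.rpow_add hg, ← Real.rpow_add hg, ← Real.rpow_add hg,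
          ← Real.rpow_add hg, ← Real.rpow_add hg]
        ring_nf
    _ ≤ 8 * x * (M * g ^ (3 / 4 : ℝ) + M * g ^ (3 / 4 : ℝ) + M * g ^ (3 / 4 : ℝ) +
          M * g ^ (3 / 4 : ℝ)) := by
        apply mul_le_mul_of_nonneg_left _ (by positivity)
        have a1 := hb (9 / 8) (by norm_num) (by norm_num)
        have a2 := hb (7 / 8) (by norm_num) (by norm_num)
        have a3 := hb (9 / 8 - x) (by linarith) (by linarith)
        have a4 := hb (7 / 8 - x) (by linarith) (by linarith)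
        linarith
    _ = 32 * M * x * g ^ (3 / 4 : ℝ) := by ring

theorem sq_cont {n : ℕ} : Continuous (Pool.Agent.H93.HQ.sq : H n → ℝ) := by
  unfold Pool.Agent.H93.HQ.sq
  fun_prop

theorem sq_nonneg' {n : ℕ} (z : H n) : 0 ≤ Pool.Agent.H93.HQ.sq z := by
  unfold Pool.Agent.H93.HQ.sq
  positivity

theorem one_le_ww {n : ℕ} (z : H n) : 1 ≤ ww z := by
  have := sq_nonneg' z
  unfold ww
  nlinarith [mul_self_nonneg z.2.2]

theorem sq_le_ww {n : ℕ} (z : H n) : sq z ^ 2 ≤ ww z := by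
  have := sq_nonneg' z
  unfold ww
  nlinarith [mul_self_nonneg z.2.2]

theorem ww_cont {n : ℕ} : Continuous (ww : H n → ℝ) := by
  unfold ww
  have := sq_cont (n := n)
  fun_prop

theorem mz_cont {n : ℕ} : Continuous (mz : H n → ℝ) := by
  unfold mz
  exact Real.continuous_sqrt.comp sq_cont

theorem mz_le {n : ℕ} (z : H n) : mz z ≤ ww z := by
  have h0 := sq_nonneg' z
  have h1 : sq z ≤ ww z ^ 2 := by
    have := one_le_ww z
    have := sq_le_ww z
    unfold ww at *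
    nlinarith [mul_self_nonneg z.2.2]
  unfold mz
  rw [Real.sqrt_le_left (by linarith [one_le_ww z])]
  exact h1

theorem rpow_cmp {M g e : ℝ} (hM : 1 ≤ M) (hg : 0 ≤ g) (hgM : g ≤ M) (he : 3 / 2 ≤ e)
    (he' : e ≤ 5 / 2) : g ^ e ≤ M * g ^ (3 / 2 : ℝ) := by
  rcases hg.eq_or_lt with rfl | hg
  · rw [Real.zero_rpow (by linarith), Real.zero_rpow (by norm_num), mul_zero]
  · have e2 : g ^ e = g ^ (e - 3 / 2) * g ^ (3 / 2 : ℝ) := by
      rw [← Real.rpow_add hg]
      ring_nf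
    rw [e2]
    apply mul_le_mul_of_nonneg_right _ (Real.rpow_nonneg hg.le _)
    calc g ^ (e - 3 / 2) ≤ M ^ (e - 3 / 2) := Real.rpow_le_rpow hg.le hgM (by linarith)
      _ ≤ M ^ (1 : ℝ) := Real.rpow_le_rpow_of_exponent_le hM (by linarith)
      _ = M := Real.rpow_one M

end LNAaux

open LNAaux in
theorem pf_LNA (hGRU : T_GRU) (hJJI : T_JJI) : T_LNA := by
  intro n hn
  have hn' : (1 : ℝ) ≤ n := by exact_mod_cast hn
  obtain ⟨g, hgdef⟩ : ∃ g : H n → ℝ, g = fun z => ‖hg (u0 n) z‖ := ⟨_, rfl⟩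
  have hform : ∀ z, g z = 2 * n * mz z * ww z ^ (-((n : ℝ) + 1) / 2) := by
    intro z
    rw [hgdef]
    exact (hGRU n z).2
  have hg0 : ∀ z, 0 ≤ g z := by
    intro z
    rw [hgdef]
    exact norm_nonneg _
  set M : ℝ := 2 * n with hMdef
  have hM1 : 1 ≤ M := by rw [hMdef]; linarith
  have hgM : ∀ z, g z ≤ M := by
    intro z
    have hw := one_le_ww z
    have h1 : ww z ^ (-((n : ℝ) + 1) / 2) ≤ ww z ^ (-1 : ℝ) :=
      Real.rpow_le_rpow_of_exponent_le hw (by linarith)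
    have h2 : mz z * ww z ^ (-((n : ℝ) + 1) / 2) ≤ 1 := by
      calc mz z * ww z ^ (-((n : ℝ) + 1) / 2) ≤ ww z * ww z ^ (-1 : ℝ) :=
            mul_le_mul (mz_le z) h1 (Real.rpow_nonneg (by linarith) _) (by linarith)
        _ = 1 := by
            rw [Real.rpow_neg_one]
            exact mul_inv_cancel₀ (by linarith)
    rw [hform, mul_assoc]
    calc M * (mz z * ww z ^ (-((n : ℝ) + 1) / 2)) ≤ M * 1 :=
          mul_le_mul_of_nonneg_left h2 (by linarith)
      _ = M := mul_one M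
  have hgc : Continuous g := by
    have e : g = fun z => 2 * n * mz z * ww z ^ (-((n : ℝ) + 1) / 2) := funext hform
    rw [e]
    exact (continuous_const.mul mz_cont).mul
      (ww_cont.rpow_const fun z => Or.inl (by linarith [one_le_ww z]))
  -- integrability of `g ^ (3/2)`
  have hI : Integrable (fun z => g z ^ (3 / 2 : ℝ)) := by
    have h := (hJJI n (3 / 2) (3 * (n + 1) / 4) hn (by norm_num) (by linarith)).1
    have e : (fun z : H n => g z ^ (3 / 2 : ℝ)) =
        fun z => M ^ (3 / 2 : ℝ) * (mz z ^ (3 / 2 : ℝ) * ww z ^ (-(3 * ((n : ℝ) + 1) / 4))) := by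
      funext z
      have hw := one_le_ww z
      have hm : 0 ≤ mz z := Real.sqrt_nonneg _
      rw [hform, Real.mul_rpow (by positivity) (Real.rpow_nonneg (by linarith) _),
        Real.mul_rpow (by positivity) hm, ← Real.rpow_mul (by linarith), mul_assoc]
      congr 3
      ring
    rw [e]
    exact h.const_mul _
  set I : ℝ := ∫ z, g z ^ (3 / 2 : ℝ) with hIdef
  have hI0 : 0 ≤ I := integral_nonneg fun z => Real.rpow_nonneg (hg0 z) _
  refine ⟨32 * M * (1 + M * I), by positivity, ?_⟩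
  intro p hp1 hp2 h hh
  obtain ⟨p', hp'⟩ : ∃ p' : ℝ, p' = p / (p - 1) := ⟨_, rfl⟩
  have hpm : 0 < p - 1 := by linarith
  have hp'2 : 2 ≤ p' := by
    rw [hp', le_div_iff₀ hpm]
    linarith
  have hp'3 : p' ≤ 15 / 7 := by
    rw [hp', div_le_iff₀ hpm]
    linarith
  have hconj : p'.HolderConjugate p := by
    rw [Real.holderConjugate_comm, hp']
    exact Real.HolderConjugate.conjExponent (by linarith)
  have hcmp : ∀ z, (g z ^ (3 / 4 : ℝ)) ^ p' ≤ M * g z ^ (3 / 2 : ℝ) := by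
    intro z
    rw [← Real.rpow_mul (hg0 z)]
    exact rpow_cmp hM1 (hg0 z) (hgM z) (by linarith) (by linarith)
  have hFc : Continuous (fun z => g z ^ (3 / 4 : ℝ)) :=
    hgc.rpow_const fun z => Or.inr (by norm_num)
  have hF0 : ∀ z, 0 ≤ g z ^ (3 / 4 : ℝ) := fun z => Real.rpow_nonneg (hg0 z) _
  have hFi : Integrable (fun z => (g z ^ (3 / 4 : ℝ)) ^ p') := by
    refine (hI.const_mul M).mono' ?_ (Eventually.of_forall fun z => ?_)
    · exact (hFc.rpow_const fun z => Or.inr (by linarith)).aestronglyMeasurable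
    · rw [Real.norm_of_nonneg (Real.rpow_nonneg (hF0 z) _)]
      exact hcmp z
  have hF : MemLp (fun z => g z ^ (3 / 4 : ℝ)) (ENNReal.ofReal p') := by
    rw [← integrable_norm_rpow_iff hFc.aestronglyMeasurable
      (ENNReal.ofReal_ne_zero_iff.2 (by linarith)) ENNReal.ofReal_ne_top,
      ENNReal.toReal_ofReal (by linarith)]
    refine hFi.congr (Eventually.of_forall fun z => ?_)
    simp only
    rw [Real.norm_of_nonneg (hF0 z)]
  have hFint : (∫ z, (g z ^ (3 / 4 : ℝ)) ^ p') ^ (1 / p') ≤ 1 + M * I := by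
    have h1 : ∫ z, (g z ^ (3 / 4 : ℝ)) ^ p' ≤ M * I := by
      rw [hIdef, ← integral_const_mul]
      exact integral_mono hFi (hI.const_mul M) hcmp
    have hMI : 0 ≤ M * I := by positivity
    calc (∫ z, (g z ^ (3 / 4 : ℝ)) ^ p') ^ (1 / p') ≤ (1 + M * I) ^ (1 / p') :=
          Real.rpow_le_rpow (integral_nonneg fun z => Real.rpow_nonneg (hF0 z) _) (by linarith)
            (by positivity)
      _ ≤ (1 + M * I) ^ (1 : ℝ) := by
          apply Real.rpow_le_rpow_of_exponent_le (by linarith)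
          rw [div_le_one (by linarith)]
          linarith
      _ = 1 + M * I := Real.rpow_one _
  have hhold := integral_mul_le_Lp_mul_Lq_of_nonneg hconj (Eventually.of_forall hF0)
    (Eventually.of_forall fun z => norm_nonneg (h z)) hF hh.norm
  have hinst := hconj.ennrealOfReal
  have hint : Integrable (fun z => g z ^ (3 / 4 : ℝ) * ‖h z‖) := hF.integrable_mul hh.norm
  have hx0 : 0 ≤ 2 - p := by linarith
  have hpt : ∀ z, ‖(‖hg (u0 n) z‖ ^ (p - 2) - 1) * inner ℝ (hg (u0 n) z) (h z)‖ ≤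
      32 * M * (2 - p) * (g z ^ (3 / 4 : ℝ) * ‖h z‖) := by
    intro z
    have hgz : ‖hg (u0 n) z‖ = g z := by rw [hgdef]
    rcases (hg0 z).eq_or_lt with h0 | h0
    · have h1 : hg (u0 n) z = 0 := by rw [← norm_eq_zero, hgz, ← h0]
      rw [h1, inner_zero_left, mul_zero, norm_zero]
      have := hF0 z
      positivity
    · have h1 := pw hM1 h0 (hgM z) hx0 (by linarith : 2 - p ≤ 1 / 8)
      rw [neg_sub] at h1
      have h2 : |inner ℝ (hg (u0 n) z) (h z)| ≤ g z * ‖h z‖ := by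
        rw [← hgz]
        exact abs_real_inner_le_norm _ _
      rw [hgz, norm_mul, Real.norm_eq_abs, Real.norm_eq_abs]
      calc |g z ^ (p - 2) - 1| * |inner ℝ (hg (u0 n) z) (h z)|
          ≤ |g z ^ (p - 2) - 1| * (g z * ‖h z‖) := mul_le_mul_of_nonneg_left h2 (abs_nonneg _)
        _ = (|g z ^ (p - 2) - 1| * g z) * ‖h z‖ := by ring
        _ ≤ (32 * M * (2 - p) * g z ^ (3 / 4 : ℝ)) * ‖h z‖ :=
            mul_le_mul_of_nonneg_right h1 (norm_nonneg _)
        _ = _ := by ring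
  have hmain := norm_integral_le_of_norm_le (hint.const_mul (32 * M * (2 - p)))
    (Eventually.of_forall hpt)
  rw [Real.norm_eq_abs, integral_const_mul] at hmain
  refine hmain.trans ?_
  have hen : 0 ≤ (∫ z, ‖h z‖ ^ p) ^ (1 / p) :=
    Real.rpow_nonneg (integral_nonneg fun z => Real.rpow_nonneg (norm_nonneg _) _) _
  have hfin : ∫ z, g z ^ (3 / 4 : ℝ) * ‖h z‖ ≤ (1 + M * I) * en p h ^ (1 / p) :=
    hhold.trans (mul_le_mul_of_nonneg_right hFint hen)
  calc 32 * M * (2 - p) * ∫ z, g z ^ (3 / 4 : ℝ) * ‖h z‖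
      ≤ 32 * M * (2 - p) * ((1 + M * I) * en p h ^ (1 / p)) :=
        mul_le_mul_of_nonneg_left hfin (by positivity)
    _ = _ := by ring

end Pool.Agent.H17.HB
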