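import Pool.Agent.H27.HB.TA
import Pool.Agent.H27.HB.TD

/-!
# Row REL: bounded sequences have almost everywhere convergent subsequences
-/

set_option autoImplicit false

namespace Pool.Agent.H17.HB
open MeasureTheory Set Filter Topology Pool.Agent.H80.HS Pool.Agent.H93.HQ Pool.Agent.H27.HB
open scoped ContDiff ENNReal

lemma rel_bounded {n : ℕ} (ρ : ℝ) : {z : H n | N z ≤ ρ} ⊆ Metric.closedBall 0 (max ρ (ρ ^ 2)) := by
  intro z hz
  have hz' : N z ≤ ρ := hz
  have h0 := N_nonneg z
  have h4 := N_pow_four' z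
  have hsq : sq z = ‖z.1‖ ^ 2 + ‖z.2.1‖ ^ 2 := rfl
  have hmz := mz_le_N z
  have hm2 := mz_sq z
  have hm0 := mz_nonneg z
  have h1 : ‖z.1‖ ≤ ρ := by
    have : ‖z.1‖ ^ 2 ≤ mz z ^ 2 := by rw [hm2, hsq]; nlinarith [sq_nonneg ‖z.2.1‖]
    have := (pow_le_pow_iff_left₀ (norm_nonneg _) hm0 two_ne_zero).1 this
    linarith
  have h2 : ‖z.2.1‖ ≤ ρ := by
    have : ‖z.2.1‖ ^ 2 ≤ mz z ^ 2 := by rw [hm2, hsq]; nlinarith [sq_nonneg ‖z.1‖]
    have := (pow_le_pow_iff_left₀ (norm_nonneg _) hm0 two_ne_zero).1 this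
    linarith
  have h3 : |z.2.2| ≤ ρ ^ 2 := by
    have h5 : |z.2.2| ^ 2 ≤ (N z ^ 2) ^ 2 := by
      rw [sq_abs]; nlinarith [sq_nonneg (sq z)]
    have h6 := (pow_le_pow_iff_left₀ (abs_nonneg _) (by positivity) two_ne_zero).1 h5
    nlinarith
  rw [mem_closedBall_zero_iff, Prod.norm_def, Prod.norm_def, Real.norm_eq_abs]
  refine max_le (h1.trans (le_max_left _ _)) (max_le (h2.trans (le_max_left _ _)) ?_)
  exact h3.trans (le_max_right _ _)

lemma rel_vol {n : ℕ} (ρ : ℝ) : volume {z : H n | N z ≤ ρ} ≠ ⊤ :=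
  ((measure_mono (rel_bounded ρ)).trans_lt measure_closedBall_lt_top).ne

lemma rel_meas {n : ℕ} (ρ : ℝ) : MeasurableSet {z : H n | N z ≤ ρ} :=
  (isClosed_le continuous_N continuous_const).measurableSet

lemma rel_int {n : ℕ} (ρ : ℝ) {f : H n → ℝ} (hf : Continuous f) :
    IntegrableOn f {z : H n | N z ≤ ρ} :=
  (hf.continuousOn.integrableOn_compact (isCompact_closedBall 0 (max ρ (ρ ^ 2)))).mono_set
    (rel_bounded ρ)

lemma le_one_add_rpow {t q : ℝ} (ht : 0 ≤ t) (hq : 1 ≤ q) : t ≤ 1 + t ^ q := by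
  rcases le_or_gt t 1 with h | h
  · have := Real.rpow_nonneg ht q
    linarith
  · have h1 : t ^ (1 : ℝ) ≤ t ^ q := Real.rpow_le_rpow_of_exponent_le h.le hq
    rw [Real.rpow_one] at h1
    linarith

/-- the local integral is bounded by the volume and the integral of a power -/
lemma rel_bd {n : ℕ} (ρ : ℝ) {f : H n → ℝ} (hf : Continuous f) (hc : HasCompactSupport f)
    (h0 : ∀ z, 0 ≤ f z) {q : ℝ} (hq : 1 ≤ q) :
    ∫ z in {z : H n | N z ≤ ρ}, f z ≤ (volume {z : H n | N z ≤ ρ}).toReal + ∫ z, f z ^ q := by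
  have hq0 : 0 < q := by linarith
  have hcq : Continuous fun z => f z ^ q := hf.rpow_const fun z => Or.inr hq0.le
  have hsq : HasCompactSupport fun z => f z ^ q := by
    refine HasCompactSupport.intro hc fun z hz => ?_
    rw [image_eq_zero_of_notMem_tsupport hz, Real.zero_rpow hq0.ne']
  have hi : Integrable fun z => f z ^ q := hcq.integrable_of_hasCompactSupport hsq
  have hi1 : IntegrableOn (fun _ : H n => (1 : ℝ)) {z : H n | N z ≤ ρ} :=
    integrableOn_const (rel_vol ρ)
  calc ∫ z in {z : H n | N z ≤ ρ}, f z ≤ ∫ z in {z : H n | N z ≤ ρ}, (1 + f z ^ q) :=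
        setIntegral_mono (rel_int ρ hf) (hi1.add hi.integrableOn)
          fun z => le_one_add_rpow (h0 z) hq
    _ = (∫ z in {z : H n | N z ≤ ρ}, (1 : ℝ)) + ∫ z in {z : H n | N z ≤ ρ}, f z ^ q :=
        integral_add hi1 hi.integrableOn
    _ ≤ (volume {z : H n | N z ≤ ρ}).toReal + ∫ z, f z ^ q := by
        refine add_le_add (le_of_eq ?_) (setIntegral_le_integral hi
          (Eventually.of_forall fun z => Real.rpow_nonneg (h0 z) q))
        simp [Measure.real]

theorem pf_REL (hTRE : T_TRE) (hKOL : T_KOL) (hHGA : T_HGA) : T_REL := by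
  intro n hn a b C p φ ha hab hb hp hφ hms hen
  have hC0 : 0 ≤ C := by
    refine le_trans ?_ (hms 0)
    exact integral_nonneg fun z => Real.rpow_nonneg (abs_nonneg _) _
  refine hKOL n φ (fun k => (hφ k).1.continuous) ?_ ?_
  · intro R
    refine ⟨(volume {z : H n | N z ≤ R}).toReal + C, fun k => ?_⟩
    have hpk : 1 < p k := lt_of_lt_of_le ha (hp k).1
    have hpQ : p k < 2 * n + 2 := lt_of_le_of_lt (hp k).2 hb
    have hps : 1 ≤ ps n (p k) := by
      unfold ps
      have h1 : 0 < 2 * (n : ℝ) + 2 - p k := by linarith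
      rw [le_div_iff₀ h1]
      have h2 : (0 : ℝ) ≤ n := Nat.cast_nonneg n
      nlinarith
    refine (rel_bd R (hφ k).1.continuous.abs (hφ k).2.norm (fun z => abs_nonneg _) hps).trans ?_
    have := hms k
    unfold ms at this
    linarith
  · intro R ε hε
    obtain ⟨C', R', hC', hR', hT⟩ := hTRE n hn (max R 1) (lt_max_of_lt_right one_pos)
    set V := (volume {z : H n | N z ≤ R'}).toReal with hV
    have hV0 : 0 ≤ V := ENNReal.toReal_nonneg
    have hD : 0 < C' * (V + C) + 1 := by positivity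
    refine ⟨min 1 (ε / (C' * (V + C) + 1)), lt_min one_pos (div_pos hε hD), fun k h hh => ?_⟩
    have hh1 : N h ≤ 1 := hh.trans (min_le_left _ _)
    have hh2 : N h ≤ ε / (C' * (V + C) + 1) := hh.trans (min_le_right _ _)
    have hpk : 1 < p k := lt_of_lt_of_le ha (hp k).1
    have hφ1 : ContDiff ℝ 1 (φ k) := (hφ k).1.of_le (by exact_mod_cast le_top)
    have hgr : ∫ z in {z : H n | N z ≤ R'}, grad (φ k) z ≤ V + C := by
      refine (rel_bd R' (continuous_grad hφ1) (hasCompactSupport_grad (hφ k).2)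
        (fun z => grad_nonneg _ _) hpk.le).trans ?_
      have h1 := hen k
      unfold en at h1
      have h2 : ∀ z, ‖hg (φ k) z‖ = grad (φ k) z := fun z =>
        (hHGA n (φ k) (φ k) z (hφ1.differentiable one_ne_zero z)
          (hφ1.differentiable one_ne_zero z)).2.2.2
      simp only [h2] at h1
      linarith
    have hmul : Continuous fun z : H n => mul z h := by
      unfold mul
      fun_prop
    have hcont : Continuous fun z => |φ k (mul z h) - φ k z| :=
      (((hφ k).1.continuous.comp hmul).sub (hφ k).1.continuous).abs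
    calc ∫ z in {z | N z ≤ R}, |φ k (mul z h) - φ k z| ≤
          ∫ z in {z | N z ≤ max R 1}, |φ k (mul z h) - φ k z| := by
          refine setIntegral_mono_set (rel_int _ hcont)
            (Eventually.of_forall fun z => abs_nonneg _) (Eventually.of_forall fun z hz => ?_)
          exact le_trans (show N z ≤ R from hz) (le_max_left _ _)
      _ ≤ C' * N h * ∫ z in {z | N z ≤ R'}, grad (φ k) z := hT (φ k) (hφ k) h hh1
      _ ≤ C' * N h * (V + C) := mul_le_mul_of_nonneg_left hgr (mul_nonneg hC'.le (N_nonneg h))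
      _ = N h * (C' * (V + C)) := by ring
      _ ≤ ε / (C' * (V + C) + 1) * (C' * (V + C)) :=
          mul_le_mul_of_nonneg_right hh2 (by positivity)
      _ ≤ ε := by
          rw [div_mul_eq_mul_div, div_le_iff₀ hD]
          nlinarith

end Pool.Agent.H17.HB
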